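import Pool.Agent.V11308.AperyTerm

/-!
# MP_558e64: `a(p) ≡ 1 (mod p^5)` for every prime `p ≥ 5`, where
`a(n) = ∑_{j<n} C(n,j) C(n-1,j) C(n+j-1,j)^2`.
-/

namespace Pool.Agent.Results.MP_558e64_nt.ModP5

open Finset Pool.Agent.V11308

/-- `a(0) = 1` and `a(n) = ∑_{j=0}^{n-1} C(n,j) C(n-1,j) C(n+j-1,j)^2` for `n ≥ 1`. -/
def a (n : ℕ) : ℤ :=
  if n = 0 then 1 else
    ∑ j ∈ Finset.range n, (n.choose j : ℤ) * ((n - 1).choose j : ℤ) * ((n + j - 1).choose j : ℤ) ^ 2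

lemma term (p : ℕ) [hp : Fact p.Prime] (k : ℕ) (hk : k ∈ Finset.Ico 1 p) :
    ∃ e : ℤ_[p], ((p.choose k : ℕ) : ℤ_[p]) * ((p - 1).choose k : ℕ) *
      (((p + k - 1).choose k : ℕ) : ℤ_[p]) ^ 2 =
      -p ^ 3 * (t p k ^ 3 - p * t p k ^ 4) + p ^ 5 * e := by
  obtain ⟨e, he⟩ := cc_formula k hk
  have hk' := Finset.mem_Ico.1 hk
  have ht : (k : ℤ_[p]) * t p k = 1 := mul_t (not_dvd_of_mem hk)
  have hs : ((-1 : ℤ_[p]) ^ k) ^ 2 = 1 := by rw [← pow_mul, mul_comm, pow_mul]; norm_num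
  -- `(p - k) C(p,k) = p C(p-1,k)`
  have h1 : (p - k : ℤ_[p]) * ((p.choose k : ℕ) : ℤ_[p]) = p * ((p - 1).choose k : ℕ) := by
    have := Nat.choose_mul_succ_eq (p - 1) k
    have h3 : p - 1 + 1 = p := by omega
    rw [h3] at this
    have h4 := congrArg (Nat.cast : ℕ → ℤ_[p]) this
    push_cast at h4
    rw [Nat.cast_sub (by omega)] at h4
    linear_combination -h4
  have h2 : p + k - 1 = p - 1 + k := by omega
  have hu : IsUnit ((p : ℤ_[p]) - k) := by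
    have : ((p - k : ℕ) : ℤ_[p]) = p - k := by rw [Nat.cast_sub (by omega)]
    rw [← this]
    exact isUnit_cast (Nat.not_dvd_of_pos_of_lt (by omega) (by omega))
  refine ⟨-(t p k ^ 3 - p * t p k ^ 4) * (2 * e + p ^ 2 * e ^ 2), ?_⟩
  apply hu.mul_left_cancel
  rw [h2]
  have h5 : (p - k : ℤ_[p]) * (((p.choose k : ℕ) : ℤ_[p]) * ((p - 1).choose k : ℕ) *
      (((p - 1 + k).choose k : ℕ) : ℤ_[p]) ^ 2) = p * ((cc p k : ℕ) : ℤ_[p]) ^ 2 := by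
    unfold cc
    push_cast
    linear_combination ((p - 1).choose k : ℕ) * (((p - 1 + k).choose k : ℕ) : ℤ_[p]) ^ 2 * h1
  rw [h5]
  have h6 : ((cc p k : ℕ) : ℤ_[p]) = p * (-1) ^ k * (k - p) * (1 + p ^ 2 * e) * t p k ^ 2 := by
    have : ((cc p k : ℕ) : ℤ_[p]) = ((cc p k : ℕ) : ℤ_[p]) * (k : ℤ_[p]) ^ 2 * t p k ^ 2 := by
      have : (k : ℤ_[p]) ^ 2 * t p k ^ 2 = 1 := by rw [← mul_pow, ht, one_pow]
      rw [mul_assoc, this, mul_one]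
    rw [this, he]
  rw [h6]
  calc (p : ℤ_[p]) * (p * (-1) ^ k * (k - p) * (1 + p ^ 2 * e) * t p k ^ 2) ^ 2
      = ((-1 : ℤ_[p]) ^ k) ^ 2 * (p ^ 3 * (k - p) ^ 2 * (1 + p ^ 2 * e) ^ 2 * t p k ^ 4) := by ring
    _ = (p - k) * (-p ^ 3 * (k * t p k ^ 4 - p * t p k ^ 4) * (1 + p ^ 2 * e) ^ 2) := by
        rw [hs]; ring
    _ = (p - k) * (-p ^ 3 * (t p k ^ 3 - p * t p k ^ 4) * (1 + p ^ 2 * e) ^ 2) := by
        have : (k : ℤ_[p]) * t p k ^ 4 = t p k ^ 3 := by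
          linear_combination t p k ^ 3 * ht
        rw [this]
    _ = _ := by ring

lemma key (p : ℕ) (hp : p.Prime) (h7 : 7 ≤ p) : (p : ℤ) ^ 5 ∣ a p - 1 := by
  haveI : Fact p.Prime := ⟨hp⟩
  have hE : ∀ k ∈ Finset.Ico 1 p, ∃ e : ℤ_[p], ((p.choose k : ℕ) : ℤ_[p]) * ((p - 1).choose k : ℕ) *
      (((p + k - 1).choose k : ℕ) : ℤ_[p]) ^ 2 =
      -p ^ 3 * (t p k ^ 3 - p * t p k ^ 4) + p ^ 5 * e := fun k hk => term p k hk
  choose! e he using hE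
  have hH3 : (p : ℤ_[p]) ^ 2 ∣ H p 3 := by
    apply sq_dvd_H ⟨1, by norm_num⟩ (by omega)
    intro h
    have := Nat.le_of_dvd (by omega) h
    omega
  have hH4 : (p : ℤ_[p]) ∣ H p 4 := by
    apply dvd_H
    intro h
    have := Nat.le_of_dvd (by omega) h
    omega
  obtain ⟨u, hu⟩ := hH3
  obtain ⟨v, hv⟩ := hH4
  rw [← PadicInt.pow_p_dvd_int_iff (p := p) 5]
  refine ⟨-u + v + ∑ k ∈ Finset.Ico 1 p, e k, ?_⟩
  unfold a
  rw [if_neg (by omega)]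
  push_cast
  rw [Finset.range_eq_Ico, Finset.sum_eq_sum_Ico_succ_bot (by omega)]
  simp only [Nat.choose_zero_right, Nat.cast_one, one_pow, mul_one, zero_add]
  have h1 : ∑ k ∈ Finset.Ico 1 p, ((p.choose k : ℕ) : ℤ_[p]) * ((p - 1).choose k : ℕ) *
      (((p + k - 1).choose k : ℕ) : ℤ_[p]) ^ 2 =
      -p ^ 3 * H p 3 + p ^ 4 * H p 4 + p ^ 5 * ∑ k ∈ Finset.Ico 1 p, e k := by
    rw [H, H, Finset.mul_sum, Finset.mul_sum, Finset.mul_sum, ← Finset.sum_add_distrib,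
      ← Finset.sum_add_distrib]
    apply Finset.sum_congr rfl
    intro k hk
    rw [he k hk]
    ring
  rw [h1, hu, hv]
  ring

/-- `p^5` divides `a(p) - 1` for every prime `p ≥ 5`. -/
theorem result : ∀ p : ℕ, p.Prime → 5 ≤ p → (p : ℤ) ^ 5 ∣ a p - 1 := by
  intro p hp h5
  rcases Nat.lt_or_ge p 7 with h | h
  · have : p = 5 := by
      interval_cases p
      · rfl
      · exact absurd hp (by decide)
    subst this
    decide
  · exact key p hp h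

end Pool.Agent.Results.MP_558e64_nt.ModP5
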